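import Mathlib

set_option autoImplicit false
set_option exponentiation.threshold 600

/-!
# Kernel computations: Fermat test with base `2`, and Euler's totient function

All functions are written with recursors in such a way that the kernel evaluates the arguments at
each step.
-/

namespace Pool.Agent.H495.Sun

/-- squaring modulo `N` -/
@[reducible] def sq (N x : ℕ) : ℕ := Nat.mod (Nat.mul x x) N

/-- `go N E i x` is congruent to `x ^ (2 ^ (8 i)) * 2 ^ (E mod 2 ^ (8 i))` modulo `N` -/
noncomputable def go (N E : ℕ) (i : ℕ) : ℕ → ℕ :=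
  Nat.rec (motive := fun _ => ℕ → ℕ) (fun x => x)
    (fun i ih x =>
      Nat.rec (motive := fun _ => ℕ) 0 (fun y _ => ih (Nat.succ y))
        (Nat.mod (Nat.shiftLeft
          (sq N (sq N (sq N (sq N (sq N (sq N (sq N (sq N x))))))))
          (Nat.mod (Nat.shiftRight E (Nat.mul 8 i)) 256)) N)) i

/-- the same in blocks of `512` binary digits -/
noncomputable def outer (N E : ℕ) (c : ℕ) : ℕ → ℕ :=
  Nat.rec (motive := fun _ => ℕ → ℕ) (fun x => x)
    (fun c ih x =>
      Nat.rec (motive := fun _ => ℕ) 0 (fun y _ => ih (Nat.succ y))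
        (go N (Nat.mod (Nat.shiftRight E (Nat.mul 512 c)) (Nat.pow 2 512)) 64 x)) c

/-- `true` if `N` fails the Fermat test with base `2` -/
noncomputable def ferFail (N c : ℕ) : Bool :=
  Nat.ble N (Nat.pow 2 (Nat.mul 512 c)) && Nat.ble 3 N &&
    !(Nat.beq (Nat.mod (outer N (Nat.sub N 1) c 1) N) 1)

theorem rec_force (n : ℕ) (f : ℕ → ℕ) (h0 : n = 0 → f n = 0) :
    Nat.rec (motive := fun _ => ℕ) 0 (fun y _ => f (Nat.succ y)) n = f n := by
  cases n with
  | zero => exact (h0 rfl).symm
  | succ n => rfl

theorem sq_cast (N x : ℕ) : ((sq N x : ℕ) : ZMod N) = (x : ZMod N) ^ 2 := by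
  have h : sq N x = x * x % N := rfl
  rw [h, ZMod.natCast_mod, Nat.cast_mul, pow_two]

theorem go_zero (N E x : ℕ) : go N E 0 x = x := rfl

theorem go_succ (N E i x : ℕ) : go N E (i + 1) x =
    Nat.rec (motive := fun _ => ℕ) 0 (fun y _ => go N E i (Nat.succ y))
        (((sq N (sq N (sq N (sq N (sq N (sq N (sq N (sq N x)))))))) <<<
          ((E >>> (8 * i)) % 256)) % N) := rfl

theorem go_of_zero (N E i : ℕ) : go N E i 0 = 0 := by
  cases i with
  | zero => rfl
  | succ i =>
    rw [go_succ]
    have h : sq N 0 = 0 := by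
      have : sq N 0 = 0 * 0 % N := rfl
      rw [this]; simp
    rw [h, h, h, h, h, h, h, h, Nat.zero_shiftLeft, Nat.zero_mod]
    rfl

theorem go_spec (N : ℕ) (E i x : ℕ) :
    ((go N E i x : ℕ) : ZMod N) = (x : ZMod N) ^ (2 ^ (8 * i)) * 2 ^ (E % 2 ^ (8 * i)) := by
  induction i generalizing x with
  | zero => simp [go_zero, Nat.mod_one]
  | succ i ih =>
    rw [go_succ, rec_force _ (fun y => go N E i y) (fun h => by rw [h]; exact go_of_zero N E i),
      ih, ZMod.natCast_mod, Nat.shiftLeft_eq, Nat.cast_mul, sq_cast, sq_cast, sq_cast, sq_cast,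
      sq_cast, sq_cast, sq_cast, sq_cast, Nat.shiftRight_eq_div_pow]
    have h1 : E % 2 ^ (8 * (i + 1)) = E % 2 ^ (8 * i) + 2 ^ (8 * i) * (E / 2 ^ (8 * i) % 256) := by
      have : (2 : ℕ) ^ (8 * (i + 1)) = 2 ^ (8 * i) * 256 := by
        rw [mul_add, pow_add]; norm_num
      rw [this, Nat.mod_mul]
    rw [h1]
    push_cast
    rw [mul_pow, ← pow_mul, ← pow_mul, ← pow_mul, ← pow_mul, ← pow_mul, ← pow_mul, ← pow_mul,
      ← pow_mul, ← pow_mul, pow_add]
    have h2 : 2 * (2 * (2 * (2 * (2 * (2 * (2 * (2 * 2 ^ (8 * i)))))))) = 2 ^ (8 * (i + 1)) := by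
      rw [mul_add, pow_add]; ring
    rw [h2]
    ring

theorem outer_zero (N E x : ℕ) : outer N E 0 x = x := rfl

theorem outer_succ (N E c x : ℕ) : outer N E (c + 1) x =
    Nat.rec (motive := fun _ => ℕ) 0 (fun y _ => outer N E c (Nat.succ y))
        (go N ((E >>> (512 * c)) % 2 ^ 512) 64 x) := rfl

theorem outer_of_zero (N E c : ℕ) : outer N E c 0 = 0 := by
  cases c with
  | zero => rfl
  | succ c =>
    rw [outer_succ, go_of_zero]
    rfl

theorem outer_spec (N : ℕ) (E c x : ℕ) :
    ((outer N E c x : ℕ) : ZMod N) = (x : ZMod N) ^ (2 ^ (512 * c)) * 2 ^ (E % 2 ^ (512 * c)) := by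
  induction c generalizing x with
  | zero => simp [outer_zero, Nat.mod_one]
  | succ c ih =>
    rw [outer_succ, rec_force _ (fun y => outer N E c y)
      (fun h => by rw [h]; exact outer_of_zero N E c),
      ih, go_spec N, Nat.shiftRight_eq_div_pow]
    have h0 : 8 * 64 = 512 := by norm_num
    have h1 : E % 2 ^ (512 * (c + 1)) =
        E % 2 ^ (512 * c) + 2 ^ (512 * c) * (E / 2 ^ (512 * c) % 2 ^ 512) := by
      have : (2 : ℕ) ^ (512 * (c + 1)) = 2 ^ (512 * c) * 2 ^ 512 := by
        rw [mul_add, pow_add]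
      rw [this, Nat.mod_mul]
    rw [h1, h0, Nat.mod_mod, mul_pow, ← pow_mul, ← pow_mul, pow_add]
    have h2 : 2 ^ 512 * 2 ^ (512 * c) = 2 ^ (512 * (c + 1)) := by
      rw [mul_add, pow_add, mul_comm]
    rw [h2]
    ring

theorem not_prime_of_ferFail (N c : ℕ) (h : ferFail N c = true) : ¬ N.Prime := by
  intro hp
  unfold ferFail at h
  rw [Bool.and_eq_true, Bool.and_eq_true] at h
  obtain ⟨⟨h1, h2⟩, h3⟩ := h
  have h1' : N ≤ 2 ^ (512 * c) := Nat.le_of_ble_eq_true h1
  have h2' : 3 ≤ N := Nat.le_of_ble_eq_true h2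
  have hF : Fact N.Prime := ⟨hp⟩
  have hE : (N - 1) % 2 ^ (512 * c) = N - 1 := Nat.mod_eq_of_lt (by omega)
  have hs := outer_spec N (N - 1) c 1
  rw [hE] at hs
  have h20 : (2 : ZMod N) ≠ 0 := by
    intro h0
    have : ((2 : ℕ) : ZMod N) = 0 := by exact_mod_cast h0
    rw [ZMod.natCast_eq_zero_iff] at this
    have := Nat.le_of_dvd (by norm_num) this
    omega
  rw [ZMod.pow_card_sub_one_eq_one h20] at hs
  have hs2 : ((outer N (N - 1) c 1 : ℕ) : ZMod N) = ((1 : ℕ) : ZMod N) := by
    rw [hs]; simp
  rw [ZMod.natCast_eq_natCast_iff] at hs2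
  have hs3 : outer N (N - 1) c 1 % N = 1 := by
    have : outer N (N - 1) c 1 % N = 1 % N := hs2
    rw [this, Nat.mod_eq_of_lt (by omega)]
  have h4 : Nat.beq (Nat.mod (outer N (Nat.sub N 1) c 1) N) 1 = true := by
    rw [Nat.beq_eq]
    exact hs3
  rw [h4] at h3
  exact absurd h3 (by decide)

/-! ### Euler's totient function -/

/-- `totAux f d m` computes the totient of `m` if `m` has no prime factor below `d` -/
noncomputable def totAux (f : ℕ) : ℕ → ℕ → ℕ :=
  Nat.rec (motive := fun _ => ℕ → ℕ → ℕ) (fun _ m => Nat.totient m)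
    (fun _ ih d m =>
      Bool.rec (motive := fun _ => ℕ)
        (Bool.rec (motive := fun _ => ℕ)
          (ih (Nat.succ d) m)
          (Bool.rec (motive := fun _ => ℕ)
            (Nat.mul (Nat.sub d 1) (ih (Nat.succ d) (Nat.div m d)))
            (Nat.mul d (ih d (Nat.div m d)))
            (Nat.beq (Nat.mod (Nat.div m d) d) 0))
          (Nat.beq (Nat.mod m d) 0))
        (Bool.rec (motive := fun _ => ℕ) (Nat.sub m 1) 1 (Nat.ble m 1))
        (Nat.ble (Nat.succ m) (Nat.mul d d))) f

theorem totAux_zero (d m : ℕ) : totAux 0 d m = m.totient := rfl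

theorem totAux_succ (f d m : ℕ) : totAux (f + 1) d m =
    if m < d * d then (if m ≤ 1 then 1 else m - 1)
    else if m % d = 0 then
      (if m / d % d = 0 then d * totAux f d (m / d) else (d - 1) * totAux f (d + 1) (m / d))
    else totAux f (d + 1) m := by
  have e : totAux (f + 1) d m = Bool.rec (motive := fun _ => ℕ)
        (Bool.rec (motive := fun _ => ℕ)
          (totAux f (d + 1) m)
          (Bool.rec (motive := fun _ => ℕ)
            ((d - 1) * (totAux f (d + 1) (m / d)))
            (d * (totAux f d (m / d)))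
            (Nat.beq (m / d % d) 0))
          (Nat.beq (m % d) 0))
        (Bool.rec (motive := fun _ => ℕ) (m - 1) 1 (Nat.ble m 1))
        (Nat.ble (m + 1) (d * d)) := rfl
  rw [e]
  by_cases h1 : m < d * d
  · have : Nat.ble (m + 1) (d * d) = true := Nat.ble_eq_true_of_le h1
    rw [this, if_pos h1]
    by_cases h2 : m ≤ 1
    · have : Nat.ble m 1 = true := Nat.ble_eq_true_of_le h2
      rw [this, if_pos h2]
    · have : Nat.ble m 1 = false := by
        rw [← Bool.not_eq_true]; exact fun h => h2 (Nat.le_of_ble_eq_true h)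
      rw [this, if_neg h2]
  · have : Nat.ble (m + 1) (d * d) = false := by
      rw [← Bool.not_eq_true]; exact fun h => h1 (Nat.le_of_ble_eq_true h)
    rw [this, if_neg h1]
    by_cases h2 : m % d = 0
    · have : Nat.beq (m % d) 0 = true := by rw [Nat.beq_eq]; exact h2
      rw [this, if_pos h2]
      by_cases h3 : m / d % d = 0
      · have : Nat.beq (m / d % d) 0 = true := by rw [Nat.beq_eq]; exact h3
        rw [this, if_pos h3]
      · have : Nat.beq (m / d % d) 0 = false := by
          rw [← Bool.not_eq_true, Nat.beq_eq]; exact h3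
        rw [this, if_neg h3]
    · have : Nat.beq (m % d) 0 = false := by
        rw [← Bool.not_eq_true, Nat.beq_eq]; exact h2
      rw [this, if_neg h2]

theorem totAux_spec (f d m : ℕ) (hm : 0 < m) (hd : 2 ≤ d)
    (h : ∀ p : ℕ, p.Prime → p ∣ m → d ≤ p) : totAux f d m = m.totient := by
  induction f generalizing d m with
  | zero => rfl
  | succ f ih =>
    rw [totAux_succ]
    split_ifs with h1 h2 h3 h4
    · have : m = 1 := by omega
      subst this
      simp
    · have hp : m.Prime := by
        rw [Nat.prime_def_minFac]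
        refine ⟨by omega, ?_⟩
        by_contra hne
        have hm1 : m ≠ 1 := by omega
        have hmp := Nat.minFac_prime hm1
        have hdv := Nat.minFac_dvd m
        have h5 := h _ hmp hdv
        obtain ⟨q, hq⟩ := hdv
        have hq1 : q ≠ 1 := by
          rintro rfl
          rw [mul_one] at hq
          exact hne hq.symm
        have hq0 : q ≠ 0 := by
          rintro rfl
          omega
        have h6 : d ≤ q.minFac := h _ (Nat.minFac_prime hq1)
          ((Nat.minFac_dvd q).trans ⟨m.minFac, by rw [mul_comm]; exact hq⟩)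
        have h7 : q.minFac ≤ q := Nat.minFac_le (Nat.pos_of_ne_zero hq0)
        have : d * d ≤ m := by
          rw [hq]
          exact Nat.mul_le_mul h5 (h6.trans h7)
        omega
      rw [Nat.totient_prime hp]
    all_goals
      try
        have hdm : d ∣ m := Nat.dvd_of_mod_eq_zero h3
        have hdp : d.Prime := by
          have hd1 : d ≠ 1 := by omega
          have h5 := h _ (Nat.minFac_prime hd1) ((Nat.minFac_dvd d).trans hdm)
          have h6 := Nat.minFac_le (n := d) (by omega)
          have : d.minFac = d := by omega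
          rw [← this]
          exact Nat.minFac_prime hd1
        have hdiv : 0 < m / d := Nat.div_pos (Nat.le_of_dvd hm hdm) (by omega)
        have hmul : d * (m / d) = m := Nat.mul_div_cancel' hdm
        have hpr : ∀ p : ℕ, p.Prime → p ∣ m / d → d ≤ p := fun p hp hpd =>
          h p hp (hpd.trans ⟨d, by rw [mul_comm]; exact hmul.symm⟩)
    · rw [ih d (m / d) hdiv hd hpr]
      conv_rhs => rw [← hmul]
      rw [Nat.totient_mul_of_prime_of_dvd hdp (Nat.dvd_of_mod_eq_zero h4)]
    · rw [ih (d + 1) (m / d) hdiv (by omega)]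
      · conv_rhs => rw [← hmul]
        rw [Nat.totient_mul_of_prime_of_not_dvd hdp
          (fun hh => h4 (Nat.mod_eq_zero_of_dvd hh))]
      · intro p hp hpd
        have h5 := hpr p hp hpd
        rcases h5.lt_or_eq with h6 | h6
        · exact h6
        · subst h6
          exact absurd (Nat.mod_eq_zero_of_dvd hpd) h4
    · rw [ih (d + 1) m hm (by omega)]
      intro p hp hpd
      have h5 := h p hp hpd
      rcases h5.lt_or_eq with h6 | h6
      · exact h6
      · subst h6
        exact absurd (Nat.mod_eq_zero_of_dvd hpd) h3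

/-- the totient function, for kernel computations -/
noncomputable def tot (m : ℕ) : ℕ := totAux 200 2 m

theorem tot_eq (m : ℕ) (hm : 0 < m) : tot m = m.totient :=
  totAux_spec 200 2 m hm le_rfl (fun _ hp _ => hp.two_le)

/-! ### Certificates -/

/-- the number of the problem -/
def num (n k : ℕ) : ℕ := k * (k + 1) ^ (n - k).totient + 1

/-- the number of the problem, for kernel computations -/
noncomputable def numK (n k : ℕ) : ℕ :=
  Nat.add (Nat.mul k (Nat.pow (Nat.succ k) (tot (Nat.sub n k)))) 1

theorem numK_eq (n k : ℕ) (h : k < n) : numK n k = num n k := by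
  have h1 : numK n k = k * (k + 1) ^ (tot (n - k)) + 1 := rfl
  rw [h1, tot_eq _ (by omega), num]

/-- Fermat test for the number `num n k` -/
noncomputable def fk (n k c : ℕ) : Bool := Nat.ble (Nat.succ k) n && ferFail (numK n k) c

theorem fk_spec (n k c : ℕ) (h : fk n k c = true) : ¬ (num n k).Prime := by
  unfold fk at h
  rw [Bool.and_eq_true] at h
  have h1 : k + 1 ≤ n := Nat.le_of_ble_eq_true h.1
  rw [← numK_eq n k (by omega)]
  exact not_prime_of_ferFail _ c h.2

/-- `d` is a proper divisor of `N` -/
noncomputable def divOK (N d : ℕ) : Bool :=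
  Nat.beq (Nat.mod N d) 0 && Nat.ble 2 d && Nat.ble (Nat.succ d) N

theorem divOK_spec (N d : ℕ) (h : divOK N d = true) : ¬ N.Prime := by
  unfold divOK at h
  rw [Bool.and_eq_true, Bool.and_eq_true] at h
  obtain ⟨⟨h1, h2⟩, h3⟩ := h
  have h1' : N % d = 0 := by
    rw [Nat.beq_eq] at h1
    exact h1
  have h2' : 2 ≤ d := Nat.le_of_ble_eq_true h2
  have h3' : d + 1 ≤ N := Nat.le_of_ble_eq_true h3
  intro hp
  rcases (Nat.dvd_prime hp).1 (Nat.dvd_of_mod_eq_zero h1') with h | h <;> omega

/-- the entries of the list which are not `0` are proper divisors of `num n a`, `num n (a+1)`, ... -/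
noncomputable def chk (n : ℕ) : ℕ → List ℕ → Bool := fun a l =>
  List.rec (motive := fun _ => ℕ → Bool) (fun _ => true)
    (fun d _ ih a => (Nat.beq d 0 || (Nat.ble (Nat.succ a) n && divOK (numK n a) d)) &&
      ih (Nat.succ a)) l a

theorem chk_cons (n a d : ℕ) (l : List ℕ) : chk n a (d :: l) =
    ((Nat.beq d 0 || (Nat.ble (Nat.succ a) n && divOK (numK n a) d)) && chk n (a + 1) l) := rfl

theorem chk_spec (n a : ℕ) (l : List ℕ) (h : chk n a l = true) (i : ℕ) (hi : i < l.length)
    (h0 : l.getD i 0 ≠ 0) : ¬ (num n (a + i)).Prime := by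
  induction l generalizing a i with
  | nil => simp at hi
  | cons d l ih =>
    rw [chk_cons, Bool.and_eq_true] at h
    cases i with
    | zero =>
      have hd : d ≠ 0 := by simpa using h0
      have h1 : Nat.beq d 0 = false := by
        rw [← Bool.not_eq_true, Nat.beq_eq]; exact hd
      rw [h1, Bool.false_or, Bool.and_eq_true] at h
      have h2 : a + 1 ≤ n := Nat.le_of_ble_eq_true h.1.1
      rw [add_zero, ← numK_eq n a (by omega)]
      exact divOK_spec _ _ h.1.2
    | succ i =>
      have := ih (a + 1) h.2 i (by simpa using hi) (by simpa using h0)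
      rwa [show a + (i + 1) = a + 1 + i by ring]

/-- all indices from `a` on with the entry `0` belong to the second list, which is increasing -/
noncomputable def cov : ℕ → List ℕ → List ℕ → Bool := fun a l m =>
  List.rec (motive := fun _ => ℕ → List ℕ → Bool) (fun _ _ => true)
    (fun d _ ih a m =>
      Bool.rec (motive := fun _ => Bool) (ih (Nat.succ a) m)
        (List.rec (motive := fun _ => Bool) false
          (fun x t _ => Nat.beq x a && ih (Nat.succ a) t) m) (Nat.beq d 0)) l a m

theorem cov_cons (a d : ℕ) (l m : List ℕ) : cov a (d :: l) m =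
    Bool.rec (motive := fun _ => Bool) (cov (a + 1) l m)
        (List.rec (motive := fun _ => Bool) false
          (fun x t _ => Nat.beq x a && cov (a + 1) l t) m) (Nat.beq d 0) := rfl

theorem cov_spec (a : ℕ) (l m : List ℕ) (h : cov a l m = true) (i : ℕ) (hi : i < l.length)
    (h0 : l.getD i 0 = 0) : a + i ∈ m := by
  induction l generalizing a i m with
  | nil => simp at hi
  | cons d l ih =>
    rw [cov_cons] at h
    by_cases hd : d = 0
    · have h1 : Nat.beq d 0 = true := by rw [Nat.beq_eq]; exact hd
      rw [h1] at h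
      cases m with
      | nil => exact absurd (show false = true from h) (by decide)
      | cons x t =>
        have h2 : (Nat.beq x a && cov (a + 1) l t) = true := h
        rw [Bool.and_eq_true, Nat.beq_eq] at h2
        cases i with
        | zero => rw [add_zero, h2.1]; exact List.mem_cons_self
        | succ i =>
          have := ih (a + 1) t h2.2 i (by simpa using hi) (by simpa using h0)
          rw [show a + (i + 1) = a + 1 + i by ring]
          exact List.mem_cons_of_mem _ this
    · have h1 : Nat.beq d 0 = false := by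
        rw [← Bool.not_eq_true, Nat.beq_eq]; exact hd
      rw [h1] at h
      have h2 : cov (a + 1) l m = true := h
      cases i with
      | zero => exact absurd (by simpa using h0) hd
      | succ i =>
        have := ih (a + 1) m h2 i (by simpa using hi) (by simpa using h0)
        rwa [show a + (i + 1) = a + 1 + i by ring]

theorem nil_ok (n : ℕ) : ∀ k ∈ ([] : List ℕ), ¬ (num n k).Prime := by
  intro k hk
  exact absurd hk List.not_mem_nil

theorem cons_ok {n k : ℕ} {l : List ℕ} (h : ¬ (num n k).Prime)
    (hl : ∀ k ∈ l, ¬ (num n k).Prime) : ∀ j ∈ k :: l, ¬ (num n j).Prime := by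
  intro j hj
  rcases List.mem_cons.1 hj with rfl | hj
  · exact h
  · exact hl j hj

theorem range_of (n a b : ℕ) (l m : List ℕ) (h1 : chk n a l = true) (h2 : cov a l m = true)
    (h3 : ∀ k ∈ m, ¬ (num n k).Prime) (hl : a + l.length = b) :
    ∀ k, a ≤ k → k < b → ¬ (num n k).Prime := by
  intro k hk1 hk2
  obtain ⟨i, rfl⟩ := Nat.exists_eq_add_of_le hk1
  by_cases h : l.getD i 0 = 0
  · exact h3 _ (cov_spec a l m h2 i (by omega) h)
  · exact chk_spec n a l h1 i (by omega) h

end Pool.Agent.H495.Sun

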